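import Mathlib

namespace Pool.Agent.Results.MP_8301b4_gt.NotCCC

open Set Cardinal Ordinal Topology Filter

section defs
variable (X : Type) [TopologicalSpace X]

/-- homeomorphic to a subspace of `C_p(K)` for a compact Hausdorff `K` -/
def EG : Prop := ∃ (K : Type) (_ : TopologicalSpace K), CompactSpace K ∧ T2Space K ∧
  ∃ e : X → (K → ℝ), IsEmbedding e ∧ ∀ x, Continuous (e x)

/-- `𝒱` is a point-countable open cover refining `𝒰` -/
def PCRef (𝒰 𝒱 : Set (Set X)) : Prop :=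
  (∀ V ∈ 𝒱, IsOpen V) ∧ ⋃₀ 𝒱 = Set.univ ∧ (∀ V ∈ 𝒱, ∃ U ∈ 𝒰, V ⊆ U) ∧
    ∀ x, {V ∈ 𝒱 | x ∈ V}.Countable

def MetaLind : Prop := ∀ 𝒰 : Set (Set X), (∀ U ∈ 𝒰, IsOpen U) → ⋃₀ 𝒰 = Set.univ →
  ∃ 𝒱, PCRef X 𝒰 𝒱

def HerMetaLind : Prop := ∀ Y : Set X, MetaLind Y

/-- `D` is the sequence of Cantor-Bendixson derivatives -/
def IsCB (D : Ordinal.{0} → Set X) : Prop :=
  D 0 = Set.univ ∧ (∀ a, D (a + 1) = {x ∈ D a | x ∈ closure (D a \ {x})}) ∧
    ∀ a, Order.IsSuccLimit a → D a = ⋂ b < a, D b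

variable {X}

/-- conditions of the poset `P` -/
def Cond (𝒱 : Set (Set X)) (p : Finset X) : Prop :=
  ∀ x ∈ p, (⋃₀ {V ∈ 𝒱 | x ∈ V}) ∩ (p : Set X) = {x}

def CCC (𝒱 : Set (Set X)) : Prop := ∀ 𝒜 : Set (Finset X), (∀ p ∈ 𝒜, Cond 𝒱 p) →
  𝒜.Pairwise (fun p q => ¬ ∃ r, Cond 𝒱 r ∧ p ⊆ r ∧ q ⊆ r) → 𝒜.Countable

end defs

abbrev W : Type := (ℵ₁ : Cardinal.{0}).ord.ToType
abbrev G : Type := List (W × ℕ)

noncomputable def ρ (w : W) : Ordinal.{0} := typein (α := W) (· < ·) w

theorem ρ_lt {v w : W} : ρ v < ρ w ↔ v < w := typein_lt_typein _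
theorem ρ_lt' (w : W) : ρ w < ω₁ := by
  exact (typein_lt_self w).trans_eq (ord_aleph 1)
theorem ρ_surj {a : Ordinal.{0}} (h : a < ω₁) : ∃ w, ρ w = a :=
  typein_surj _ (by rw [type_toType, ord_aleph]; exact h)
theorem cIic (w : W) : (Iic w).Countable := by
  rw [← Iio_insert]
  exact ((countable_iff_lt_aleph_one _).2 (mk_Iio_toType_ord_lt w)).insert _
theorem uW : ¬ (Set.univ : Set W).Countable := by
  rw [countable_iff_lt_aleph_one, mk_univ, mk_ord_toType]; simp

structure T where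
  a : W × ℕ
  l : G
  h : (a :: l).Pairwise fun p q => p.1 < q.1

def T.s (x : T) : G := x.a :: x.l

theorem s_inj {x y : T} (h : x.s = y.s) : x = y := by
  cases x; cases y; simp only [T.s, List.cons.injEq] at h; obtain ⟨rfl, rfl⟩ := h; rfl

instance : TopologicalSpace G := ⊥
instance : DiscreteTopology G := ⟨rfl⟩

open Classical in
noncomputable def emb (x : T) : OnePoint G → ℝ := fun k =>
  OnePoint.rec 0 (fun t => if t <:+ x.s then 1 else 0) k

theorem emb_coe (x : T) (t : G) : 0 < emb x t ↔ t <:+ x.s := by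
  show 0 < (ite _ 1 0 : ℝ) ↔ _
  split_ifs with h <;> simp [h]

noncomputable instance : TopologicalSpace T := TopologicalSpace.induced emb inferInstance

theorem isEmb : IsEmbedding emb := ⟨⟨rfl⟩, fun x y h => s_inj <|
  ((emb_coe y _).1 (h ▸ (emb_coe x _).2 (List.suffix_refl _))).eq_of_length_le
    ((emb_coe x _).1 (h ▸ (emb_coe y _).2 (List.suffix_refl _))).length_le⟩

theorem suf_fin (l : G) : {t : G | t <:+ l}.Finite :=
  (List.finite_toSet l.tails).subset fun t ht => by simpa using ht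

theorem emb_cont (x : T) : Continuous (emb x) := by
  rw [OnePoint.continuous_iff_from_discrete]
  refine tendsto_const_nhds.congr' ?_
  filter_upwards [(suf_fin x.s).compl_mem_cofinite] with t ht
  exact (if_neg ht).symm

def cone (t : G) : Set T := {x | t <:+ x.s}

theorem cone_open (t : G) : IsOpen (cone t) := by
  have : cone t = emb ⁻¹' {g | 0 < g (t : OnePoint G)} := Set.ext fun x => (emb_coe x t).symm
  rw [this]
  exact (isOpen_lt continuous_const (continuous_apply _)).preimage isEmb.continuous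

theorem self_cone (x : T) : x ∈ cone x.s := List.suffix_refl _

theorem cone_lt {x y : T} (h : y ∈ cone x.s) (n : y ≠ x) : y.a.1 < x.a.1 := by
  rcases List.suffix_cons_iff.1 h with e | e
  · exact absurd (s_inj e).symm n
  · exact (List.pairwise_cons.1 y.h).1 _ (e.subset (by simp [T.s]))

def child (x : T) (w : W) (h : w < x.a.1) (n : ℕ) : T :=
  ⟨(w, n), x.s, List.pairwise_cons.2 ⟨fun p hp => by
    rcases List.mem_cons.1 hp with rfl | hp
    · exact h
    · exact h.trans ((List.pairwise_cons.1 x.h).1 p hp), x.h⟩⟩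

theorem child_tendsto (x : T) (w : W) (h : w < x.a.1) : Tendsto (child x w h) atTop (𝓝 x) := by
  classical
  rw [isEmb.tendsto_nhds_iff, tendsto_pi_nhds]
  intro k
  induction k using OnePoint.rec with
  | infty => exact tendsto_const_nhds
  | coe t =>
    refine tendsto_const_nhds.congr' ?_
    filter_upwards [eventually_gt_atTop (t.head?.getD (w, 0)).2] with n hn
    have : t <:+ (child x w h n).s ↔ t <:+ x.s := by
      refine List.suffix_cons_iff.trans (or_iff_right ?_)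
      rintro rfl
      simp [child] at hn
    show ite _ _ _ = ite _ _ _
    simp only [this]

def D (a : Ordinal.{0}) : Set T := {x | a ≤ ρ x.a.1}

theorem cb : IsCB T D := by
  refine ⟨by simp [D], fun a => Set.ext fun x => ⟨fun h => ?_, fun ⟨h1, h2⟩ => ?_⟩,
    fun a ha => Set.ext fun x => ?_⟩
  · have h' : a < ρ x.a.1 := Order.add_one_le_iff.1 h
    obtain ⟨w, rfl⟩ := ρ_surj (h'.trans (ρ_lt' _))
    refine ⟨h'.le, mem_closure_of_tendsto (child_tendsto x w (ρ_lt.1 h'))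
      (Eventually.of_forall fun n => ⟨le_refl (ρ w), fun e => ?_⟩)⟩
    exact (ρ_lt.1 h').ne (congrArg (fun y : T => y.a.1) e)
  · obtain ⟨y, hy, hy', n⟩ := mem_closure_iff.1 h2 _ (cone_open x.s) (self_cone x)
    exact Order.add_one_le_iff.2 (lt_of_le_of_lt hy' (ρ_lt.2 (cone_lt hy n)))
  · simp only [D, mem_setOf_eq, mem_iInter]
    refine ⟨fun h b hb => hb.le.trans h, fun h => ?_⟩
    by_contra hn
    push Not at hn
    exact absurd (h _ (ha.succ_lt hn)) (by simp)

def blk (x : T) : Set T := {y | ∃ e, [e] <:+ x.s ∧ [e] <:+ y.s}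

theorem blk_self (x : T) : x ∈ blk x := by
  have : ∀ (l : G) (a : W × ℕ), ∃ e, [e] <:+ a :: l := fun l => by
    induction l with
    | nil => exact fun a => ⟨a, List.suffix_refl _⟩
    | cons b l ih => exact fun a => (ih b).imp fun e h => h.trans (List.suffix_cons _ _)
  exact (this x.l x.a).imp fun e h => ⟨h, h⟩

theorem blk_open (x : T) : IsOpen (blk x) := by
  have : blk x = ⋃ e, ⋃ _ : [e] <:+ x.s, cone [e] := by ext; simp [blk, cone]
  rw [this]
  exact isOpen_iUnion fun e => isOpen_iUnion fun _ => cone_open _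

theorem blk_count (x : T) : (blk x).Countable := by
  have h1 : ∀ e : W × ℕ, (cone [e]).Countable := fun e => by
    have : Countable (Iic e.1 ×ˢ (Set.univ : Set ℕ) : Set (W × ℕ)) :=
      ((cIic e.1).prod countable_univ).to_subtype
    refine ((countable_range fun l : List (Iic e.1 ×ˢ (Set.univ : Set ℕ) : Set (W × ℕ)) =>
      l.map Subtype.val).preimage (f := T.s) fun _ _ => s_inj).mono ?_
    rintro y ⟨u, hu⟩
    have h := y.h
    change y.s.Pairwise _ at h
    have : ∀ p ∈ y.s, p ∈ (Iic e.1 ×ˢ (Set.univ : Set ℕ) : Set (W × ℕ)) := by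
      rw [← hu] at h ⊢
      intro p hp
      rcases List.mem_append.1 hp with hp | hp
      · exact ⟨((List.pairwise_append.1 h).2.2 p hp e (by simp)).le, trivial⟩
      · rw [List.mem_singleton.1 hp]; exact ⟨le_refl e.1, trivial⟩
    exact ⟨y.s.attachWith _ this, List.attachWith_map_subtype_val this⟩
  have : blk x ⊆ ⋃ e ∈ {e | e ∈ x.s}, cone [e] := fun y ⟨e, h, h'⟩ =>
    mem_biUnion (h.subset (by simp)) h'
  exact ((List.finite_toSet x.s).countable.biUnion fun e _ => h1 e).mono this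

theorem hml : HerMetaLind T := by
  intro Y 𝒰 ho hc
  have : ∀ y : Y, ∃ U ∈ 𝒰, y ∈ U := fun y => by
    have : y ∈ ⋃₀ 𝒰 := hc ▸ mem_univ y
    simpa using this
  choose U hU hy using this
  refine ⟨range fun y => U y ∩ Subtype.val ⁻¹' blk y, ?_, ?_, ?_, fun x => ?_⟩
  · rintro _ ⟨y, rfl⟩
    exact (ho _ (hU y)).inter ((blk_open _).preimage continuous_subtype_val)
  · exact eq_univ_of_forall fun y => ⟨_, ⟨y, rfl⟩, hy y, blk_self _⟩
  · rintro _ ⟨y, rfl⟩
    exact ⟨_, hU y, inter_subset_left⟩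
  · refine (((blk_count x).preimage Subtype.val_injective).image
      fun y : Y => U y ∩ Subtype.val ⁻¹' blk y).mono ?_
    rintro _ ⟨⟨y, rfl⟩, -, e, h1, h2⟩
    exact ⟨y, ⟨e, h2, h1⟩, rfl⟩

def one (w : W) : T := ⟨(w, 0), [], by simp⟩

theorem low_open (w : W) : IsOpen {y : T | y.a.1 < w} := by
  refine isOpen_iff_forall_mem_open.2 fun y hy => ⟨_, fun z hz => ?_, cone_open y.s, self_cone y⟩
  by_cases e : z = y
  · exact e ▸ hy
  · exact (cone_lt hz e).trans hy

theorem card : #T = ℵ₁ := by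
  have : Infinite W := Set.infinite_univ_iff.1 fun h => uW h.countable
  refine le_antisymm ((mk_le_of_injective fun _ _ => s_inj).trans ?_) ?_
  · rw [mk_list_eq_mk, mk_prod]; simp
  · rw [← mk_ord_toType ℵ₁]
    exact mk_le_of_injective (f := one) fun v w h => congrArg (fun y : T => y.a.1) h

theorem result : ∃ (X : Type) (_ : TopologicalSpace X), T35Space X ∧ EG X ∧ HerMetaLind X ∧
    #X = ℵ₁ ∧ ∃ D : Ordinal.{0} → Set X, IsCB X D ∧ D ω₁ = ∅ ∧ (∀ a < ω₁, D a ≠ ∅) ∧
    ∃ U : X → Set X, (∀ x, IsOpen (U x) ∧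
      ∀ a, x ∈ D a \ D (a + 1) → U x ∩ (D a \ D (a + 1)) = {x}) ∧
    ∃ 𝒱, PCRef X (range U) 𝒱 ∧ ¬ CCC 𝒱 := by
  classical
  obtain ⟨w0, h0⟩ := ρ_surj (a := 0) (omega_pos 1)
  obtain ⟨w1, h1⟩ : ∃ w, w0 < w := by
    by_contra h
    push Not at h
    exact uW ((cIic w0).mono fun w _ => h w)
  refine ⟨T, inferInstance, isEmb.t35Space, ⟨_, _, inferInstance, inferInstance, emb, isEmb,
    emb_cont⟩, hml, card, D, cb, eq_empty_of_forall_notMem fun x h => (ρ_lt' _).not_ge h,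
    fun a ha => ?_, fun x : T => cone x.s ∪ {y : T | y.a.1 < x.a.1},
    fun x => ⟨(cone_open _).union (low_open _), fun a hx => ?_⟩,
    insert {y : T | y.a.1 < w1} (range fun x : T => cone x.s), ⟨?_, ?_, ?_, fun x => ?_⟩, fun h => ?_⟩
  · obtain ⟨w, rfl⟩ := ρ_surj ha
    exact Nonempty.ne_empty ⟨one w, le_refl (ρ w)⟩
  · refine eq_singleton_iff_unique_mem.2 ⟨⟨.inl (self_cone x), hx⟩, fun y ⟨h, h', _⟩ => ?_⟩
    by_contra n
    have : y.a.1 < x.a.1 := h.elim (fun h => cone_lt h n) id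
    exact hx.2 (Order.add_one_le_iff.2 (lt_of_le_of_lt h' (ρ_lt.2 this)))
  · rintro _ (rfl | ⟨x, rfl⟩)
    exacts [low_open _, cone_open _]
  · exact eq_univ_of_forall fun x => ⟨_, .inr ⟨x, rfl⟩, self_cone x⟩
  · rintro _ (rfl | ⟨x, rfl⟩)
    · exact ⟨_, ⟨one w1, rfl⟩, subset_union_right⟩
    · exact ⟨_, ⟨x, rfl⟩, subset_union_left⟩
  · refine (((suf_fin x.s).countable.image cone).insert {y | y.a.1 < w1}).mono ?_
    rintro _ ⟨rfl | ⟨y, rfl⟩, h⟩
    · exact .inl rfl
    · exact .inr ⟨_, h, rfl⟩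
  · have hc := h ((fun y : T => ({y} : Finset T)) '' {y | y.a.1 < w1}) ?_ ?_
    · have h2 := (countable_of_injective_of_countable_image
        (Finset.singleton_injective.injOn) hc)
      have h3 := (h2.image fun y : T => (y.l.head?.getD (w0, 0)).1).union (cIic w0)
      refine uW (h3.mono fun w _ => ?_)
      rcases le_or_gt w w0 with e | e
      · exact .inr e
      · exact .inl ⟨child (one w) w0 e 0, h1, rfl⟩
    · rintro _ ⟨y, -, rfl⟩ x hx
      rw [Finset.mem_singleton.1 hx, Finset.coe_singleton]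
      exact inter_eq_right.2 (singleton_subset_iff.2 ⟨_, ⟨.inr ⟨y, rfl⟩, self_cone y⟩, self_cone y⟩)
    · rintro _ ⟨y, hy, rfl⟩ _ ⟨z, hz, rfl⟩ n ⟨r, hr, a, b⟩
      have : z ∈ ({y} : Set T) := hr y (a (by simp)) ▸ ⟨⟨_, ⟨.inl rfl, hy⟩, hz⟩, b (by simp)⟩
      exact n (by rw [this])

end Pool.Agent.Results.MP_8301b4_gt.NotCCC
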